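import Pool.Agent.Q28.GD.Defs

/-!
# The conjecture of Gross and Deligne: reductions. Definitions
-/

namespace Pool.Agent.Q28.GE

open Pool.Agent.Q28.GD

/-- The admissible triples `(H, F, ι)` of the conjecture of Gross and Deligne for ALL smooth
projective varieties over the algebraic numbers and all weights, for a fixed abelian number field `F`
of conductor `d`, with their weights, Hodge numbers and periods (`tr`), and the elementary operations
on them. -/
structure AllTriples (d : ℕ) where
  /-- all admissible triples `(H, F, ι)`, `H ⊆ H^m(X)`, for all `X` and `m` -/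
  tr : Periods d
  /-- the tensor product over `F`: `H ⊗_F H'` is a direct summand of `H ⊗ H' ⊆ H^(m+m')(X × X')` -/
  tensor : tr.T → tr.T → tr.T
  /-- the same `H`, with the multiplication by `F` composed with an automorphism of `F` -/
  twist : (ZMod d)ˣ → tr.T → tr.T
  /-- a triple of classes of divisors -/
  tate : tr.T
  /-- `H^1(A)`, `A` an abelian variety of dimension `[F : ℚ] / 2` with multiplication by `F` -/
  AV : tr.T → Prop

/-- Known facts. `Δ ⊆ (ℤ/d)ˣ` is the Galois group of `ℚ(μ_d)` over `F`.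
* `hodge`, `pos`, `period_ne`, `period_inv`: Hodge numbers and periods of subspaces of `H^m(X)`.
* `weight_zero`: `H^0(X)` is spanned by algebraic classes.
* `tensor_*`, `twist_*`, `tate_*`: elementary.
* `cm`: there are abelian varieties over the algebraic numbers for all CM types of `F`.
* `eps`, `koblitz_ogus`: existence of `ε`, and the theorem of Koblitz and Ogus.
* `anderson`: the conjecture for `H^1` of abelian varieties with complex multiplication by `F`. -/
structure Facts {d : ℕ} [NeZero d] (Δ : Subgroup (ZMod d)ˣ) (D : AllTriples d) : Prop where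
  hodge : ∀ t, IsHodge Δ (D.tr.hodge t) (D.tr.weight t)
  pos : ∀ t l, 0 ≤ D.tr.hodge t l
  period_ne : ∀ t l, D.tr.period t l ≠ 0
  period_inv : ∀ t, ∀ g ∈ Δ, ∀ l, D.tr.period t (g * l) = D.tr.period t l
  weight_zero : ∀ t, D.tr.weight t = 0 → ∀ l, Sim (D.tr.period t l) 1
  tensor_weight : ∀ t u, D.tr.weight (D.tensor t u) = D.tr.weight t + D.tr.weight u
  tensor_hodge : ∀ t u l, D.tr.hodge (D.tensor t u) l = D.tr.hodge t l + D.tr.hodge u l
  tensor_period : ∀ t u l,
    Sim (D.tr.period (D.tensor t u) l) (D.tr.period t l * D.tr.period u l)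
  twist_weight : ∀ g t, D.tr.weight (D.twist g t) = D.tr.weight t
  twist_hodge : ∀ g t l, D.tr.hodge (D.twist g t) l = D.tr.hodge t (g * l)
  twist_period : ∀ g t l, Sim (D.tr.period (D.twist g t) l) (D.tr.period t (g * l))
  tate_hodge : ∀ l, D.tr.hodge D.tate l = 1
  tate_period : ∀ l, Sim (D.tr.period D.tate l) (Real.pi : ℂ)
  cm : ∀ φ : (ZMod d)ˣ → ℤ, (∀ l, φ l = 0 ∨ φ l = 1) → IsHodge Δ φ 1 →
    ∃ A, D.AV A ∧ D.tr.hodge A = φ
  eps : ∀ (φ : (ZMod d)ˣ → ℤ) (m : ℤ), IsHodge Δ φ m → ∃ ε, IsEps φ ε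
  koblitz_ogus : ∀ ε : ZMod d → ℚ, IsEps (fun _ : (ZMod d)ˣ => 0) ε →
    ∀ l, IsAlgebraic ℚ (gammaProd ε l)
  anderson : ∀ A, D.AV A → ∀ ε, IsEps (D.tr.hodge A) ε →
    ∀ l, Sim (D.tr.period A l) (gammaProd ε l)

variable {d : ℕ} [NeZero d]

/-- The assertion of the conjecture of Gross and Deligne for one admissible triple. -/
def GrossDeligne (D : AllTriples d) (t : D.tr.T) : Prop :=
  ∀ ε : ZMod d → ℚ, IsEps (D.tr.hodge t) ε → ∀ l, Sim (D.tr.period t l) (gammaProd ε l)

/-- The triple is of Tate type `(k, k)`: `H` consists of Hodge classes in `H^(2k)(X)`. -/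
def IsTateType (D : AllTriples d) (t : D.tr.T) (k : ℕ) : Prop :=
  D.tr.weight t = 2 * k ∧ ∀ l, D.tr.hodge t l = k

/-- The tensor product over `F` of a nonempty family of triples. -/
def prod (D : AllTriples d) (t : D.tr.T) (L : List D.tr.T) : D.tr.T :=
  L.foldl D.tensor t

/-- The tensor product over `F` of the twists of `t` by `g` and by the elements of the list `L`. -/
def twists (D : AllTriples d) (t : D.tr.T) (g : (ZMod d)ˣ) (L : List (ZMod d)ˣ) : D.tr.T :=
  prod D (D.twist g t) (L.map fun h => D.twist h t)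

/-- No character of `Gal(F/ℚ) = (ℤ/d)ˣ / Δ` vanishes on the formal sum of the elements of the
list `L`. -/
def NoZero (Δ : Subgroup (ZMod d)ˣ) (L : List (ZMod d)ˣ) : Prop :=
  ∀ χ : (ZMod d)ˣ →* ℂˣ, (∀ g ∈ Δ, χ g = 1) → (L.map fun g => ((χ g : ℂˣ) : ℂ)).sum ≠ 0

end Pool.Agent.Q28.GE
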