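import Pool.Agent.Q28.GD.Main

/-!
# Group determinants and multiplicative relations modulo algebraic numbers
-/

namespace Pool.Agent.Q28.GE

open Finset

section Fourier

variable {Q : Type*} [AddCommGroup Q] [Fintype Q] [DecidableEq Q]

/-- the matrix of the operator `v ↦ (l ↦ ∑_{g ∈ L} v (g + l))` -/
def opMat (L : List Q) : Matrix Q Q ℤ :=
  fun a b => ((L.map fun g => if g + a = b then (1 : ℤ) else 0)).sum

lemma opMat_sum {M : Type*} [AddCommGroup M] (L : List Q) (v : Q → M) (a : Q) :
    ∑ b, opMat L a b • v b = (L.map fun g => v (g + a)).sum := by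
  unfold opMat
  induction L with
  | nil => simp
  | cons g L ih =>
    simp only [List.map_cons, List.sum_cons, add_smul, Finset.sum_add_distrib]
    rw [ih]
    congr 1
    simp [ite_smul]

lemma inj_of_char (L : List Q)
    (hL : ∀ χ : AddChar Q ℂ, (L.map fun g => χ g).sum ≠ 0) (v : Q → ℂ)
    (hv : ∀ a, (L.map fun g => v (g + a)).sum = 0) : v = 0 := by
  have hb := (AddChar.complexBasis Q).sum_repr v
  set c := (AddChar.complexBasis Q).repr v with hc
  have hv1 : ∀ x, v x = ∑ χ : AddChar Q ℂ, c χ * χ x := by
    intro x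
    conv_lhs => rw [← hb]
    rw [Finset.sum_apply]
    simp [AddChar.complexBasis_apply]
  have h2 : ∑ χ : AddChar Q ℂ, (c χ * (L.map fun g => χ g).sum) • (AddChar.complexBasis Q) χ = 0 := by
    funext a
    rw [Finset.sum_apply]
    have h3 := hv a
    have h4 : ∀ L : List Q, (L.map fun g => v (g + a)).sum =
        ∑ χ : AddChar Q ℂ, (c χ * (L.map fun g => χ g).sum) * χ a := by
      intro L
      induction L with
      | nil => simp
      | cons g L ih =>
        simp only [List.map_cons, List.sum_cons]
        rw [ih, hv1, ← Finset.sum_add_distrib]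
        refine Finset.sum_congr rfl fun χ _ => ?_
        rw [AddChar.map_add_eq_mul]
        ring
    rw [h4] at h3
    simpa [AddChar.complexBasis_apply] using h3
  have h5 := (AddChar.complexBasis Q).linearIndependent
  rw [Fintype.linearIndependent_iff] at h5
  have h6 := h5 _ h2
  have h7 : ∀ χ, c χ = 0 := fun χ => by
    rcases mul_eq_zero.mp (h6 χ) with h | h
    · exact h
    · exact absurd h (hL χ)
  funext x
  rw [hv1]
  simp [h7]

lemma det_opMat_ne_zero (L : List Q)
    (hL : ∀ χ : AddChar Q ℂ, (L.map fun g => χ g).sum ≠ 0) : (opMat L).det ≠ 0 := by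
  intro h
  have h1 : ((opMat L).map (Int.castRingHom ℂ)).det = 0 := by
    have := (Int.castRingHom ℂ).map_det (opMat L)
    rw [h, map_zero] at this
    exact this.symm
  obtain ⟨v, hv0, hv⟩ := Matrix.exists_mulVec_eq_zero_iff.mpr h1
  apply hv0
  apply inj_of_char L hL
  intro a
  rw [← opMat_sum L v a]
  have := congrFun hv a
  simpa [Matrix.mulVec, dotProduct, zsmul_eq_mul] using this

end Fourier

section Mult

variable {Q : Type*} [AddCommGroup Q] [Fintype Q] [DecidableEq Q]

lemma isAlgebraic_zpow {x : ℂ} (h : IsAlgebraic ℚ x) (n : ℤ) : IsAlgebraic ℚ (x ^ n) := by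
  cases n with
  | ofNat n => simpa using h.pow n
  | negSucc n => rw [zpow_negSucc]; exact (h.pow _).inv

lemma isAlgebraic_of_zpow {x : ℂ} {n : ℤ} (hn : n ≠ 0) (h : IsAlgebraic ℚ (x ^ n)) :
    IsAlgebraic ℚ x := by
  cases n with
  | ofNat n =>
    have hn' : 0 < n := Nat.pos_of_ne_zero (by simpa using hn)
    exact IsAlgebraic.of_pow hn' (by simpa using h)
  | negSucc n =>
    rw [zpow_negSucc] at h
    have := h.inv
    rw [inv_inv] at this
    exact IsAlgebraic.of_pow (Nat.succ_pos n) this

lemma isAlgebraic_prod {ι : Type*} (s : Finset ι) (f : ι → ℂ) (h : ∀ i ∈ s, IsAlgebraic ℚ (f i)) :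
    IsAlgebraic ℚ (∏ i ∈ s, f i) := by
  classical
  induction s using Finset.induction_on with
  | empty => simpa using isAlgebraic_one
  | insert a s ha ih =>
    rw [Finset.prod_insert ha]
    exact (h a (Finset.mem_insert_self a s)).mul (ih fun i hi => h i (Finset.mem_insert_of_mem hi))

/-- If the products of the translates of `r` over the list `L` are algebraic and no character of
the finite group kills `L`, then `r` is algebraic. -/
lemma key (L : List Q) (hL : ∀ χ : AddChar Q ℂ, (L.map fun g => χ g).sum ≠ 0)
    (r : Q → ℂ) (hr : ∀ a, r a ≠ 0)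
    (h : ∀ a, IsAlgebraic ℚ (L.map fun g => r (g + a)).prod) (c : Q) : IsAlgebraic ℚ (r c) := by
  have h1 : ∀ a, (L.map fun g => r (g + a)).prod = ∏ b, r b ^ opMat L a b := by
    intro a
    unfold opMat
    clear hL h
    induction L with
    | nil => simp
    | cons g L ih =>
      simp only [List.map_cons, List.prod_cons, List.sum_cons]
      rw [ih]
      have : ∀ b, r b ^ ((if g + a = b then (1 : ℤ) else 0) +
          (L.map fun g => if g + a = b then (1 : ℤ) else 0).sum) =
          r b ^ (if g + a = b then (1 : ℤ) else 0) *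
            r b ^ (L.map fun g => if g + a = b then (1 : ℤ) else 0).sum :=
        fun b => zpow_add₀ (hr b) _ _
      simp_rw [this]
      rw [Finset.prod_mul_distrib]
      congr 1
      rw [Finset.prod_eq_single (g + a)]
      · simp
      · intro b _ hb
        rw [if_neg (Ne.symm hb), zpow_zero]
      · intro hh; exact absurd (Finset.mem_univ _) hh
  have h2 : ∏ a, (∏ b, r b ^ opMat L a b) ^ (opMat L).adjugate c a = r c ^ (opMat L).det := by
    have e1 : ∀ a, (∏ b, r b ^ opMat L a b) ^ (opMat L).adjugate c a =
        ∏ b, r b ^ ((opMat L).adjugate c a * opMat L a b) := by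
      intro a
      rw [← Finset.prod_zpow]
      refine Finset.prod_congr rfl fun b _ => ?_
      rw [← zpow_mul, mul_comm]
    simp_rw [e1]
    rw [Finset.prod_comm]
    have e2 : ∀ b, ∏ a, r b ^ ((opMat L).adjugate c a * opMat L a b) =
        r b ^ (∑ a, (opMat L).adjugate c a * opMat L a b) := by
      intro b
      have : ∀ s : Finset Q, ∏ a ∈ s, r b ^ ((opMat L).adjugate c a * opMat L a b) =
          r b ^ (∑ a ∈ s, (opMat L).adjugate c a * opMat L a b) := by
        intro s
        induction s using Finset.induction_on with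
        | empty => simp
        | insert a s ha ih => rw [Finset.prod_insert ha, Finset.sum_insert ha, ih, zpow_add₀ (hr b)]
      exact this univ
    simp_rw [e2]
    have e3 : ∀ b, ∑ a, (opMat L).adjugate c a * opMat L a b =
        (opMat L).det * (1 : Matrix Q Q ℤ) c b := by
      intro b
      have := congrFun (congrFun (Matrix.adjugate_mul (opMat L)) c) b
      rw [Matrix.mul_apply] at this
      rw [this, Matrix.smul_apply, smul_eq_mul]
    simp_rw [e3]
    rw [Finset.prod_eq_single c]
    · simp
    · intro b _ hb
      rw [Matrix.one_apply_ne (Ne.symm hb), mul_zero, zpow_zero]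
    · intro hh; exact absurd (Finset.mem_univ _) hh
  have h3 : IsAlgebraic ℚ (r c ^ (opMat L).det) := by
    rw [← h2]
    refine isAlgebraic_prod _ _ fun a _ => isAlgebraic_zpow ?_ _
    rw [← h1 a]
    exact h a
  exact isAlgebraic_of_zpow (det_opMat_ne_zero L hL) h3

end Mult

end Pool.Agent.Q28.GE
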