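import Pool.Agent.Q28.GE.Defs
import Pool.Agent.Q28.GE.Key

/-!
# The conjecture of Gross and Deligne: reductions
-/

namespace Pool.Agent.Q28.GE

open Pool.Agent.Q28.GD Finset

variable {d : ℕ} [NeZero d] {Δ : Subgroup (ZMod d)ˣ} {D : AllTriples d}

lemma gamma_ne (ε : ZMod d → ℚ) (l : (ZMod d)ˣ) : ((gammaProd ε l : ℝ) : ℂ) ≠ 0 := by
  exact_mod_cast (gammaProd_pos ε l).ne'

/-- the gamma product depends only on the Hodge numbers (Koblitz-Ogus) -/
lemma gamma_sim (hF : Facts Δ D) {p : (ZMod d)ˣ → ℤ} {ε ε' : ZMod d → ℚ} (h : IsEps p ε)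
    (h' : IsEps p ε') (l : (ZMod d)ˣ) : Sim (gammaProd ε l) (gammaProd ε' l) := by
  have e : gammaProd ε l = gammaProd (fun a => ε a - ε' a) l * gammaProd ε' l := by
    rw [← gammaProd_add]; simp
  have h5 := hF.koblitz_ogus _ (h.sub h') l
  refine ⟨gamma_ne ε l, gamma_ne ε' l, ?_⟩
  rw [e]
  push_cast
  rw [mul_div_cancel_right₀ _ (gamma_ne ε' l)]
  exact h5.algebraMap

lemma gd_iff (hF : Facts Δ D) {t : D.tr.T} {ε : ZMod d → ℚ} (hε : IsEps (D.tr.hodge t) ε) :
    GrossDeligne D t ↔ ∀ l, Sim (D.tr.period t l) (gammaProd ε l) :=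
  ⟨fun h => h ε hε, fun h ε' hε' l => (h l).trans (gamma_sim hF hε hε' l)⟩

lemma exists_eps (hF : Facts Δ D) (t : D.tr.T) : ∃ ε, IsEps (D.tr.hodge t) ε :=
  hF.eps _ _ (hF.hodge t)

lemma isEps_tensor (hF : Facts Δ D) {t u : D.tr.T} {ε ε' : ZMod d → ℚ}
    (h : IsEps (D.tr.hodge t) ε) (h' : IsEps (D.tr.hodge u) ε') :
    IsEps (D.tr.hodge (D.tensor t u)) (fun a => ε a + ε' a) := by
  have e : D.tr.hodge (D.tensor t u) = fun l => D.tr.hodge t l + D.tr.hodge u l :=
    funext (hF.tensor_hodge t u)
  rw [e]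
  exact h.add h'

lemma sim_div {x y x' y' : ℂ} (h : Sim x y) (h' : Sim x' y') : Sim (x / x') (y / y') := by
  refine ⟨div_ne_zero h.1 h'.1, div_ne_zero h.2.1 h'.2.1, ?_⟩
  have : x / x' / (y / y') = (x / y) / (x' / y') := by
    have := h.1; have := h.2.1; have := h'.1; have := h'.2.1
    field_simp
  rw [this, div_eq_mul_inv]
  exact h.2.2.mul h'.2.2.inv

lemma sim_iff {x y : ℂ} (hx : x ≠ 0) (hy : y ≠ 0) : Sim x y ↔ IsAlgebraic ℚ (x / y) :=
  ⟨fun h => h.2.2, fun h => ⟨hx, hy, h⟩⟩

/-- products with a triple for which the conjecture holds -/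
lemma gd_tensor (hF : Facts Δ D) {t u : D.tr.T} (hu : GrossDeligne D u) :
    GrossDeligne D t ↔ GrossDeligne D (D.tensor t u) := by
  obtain ⟨ε, hε⟩ := exists_eps hF t
  obtain ⟨ε', hε'⟩ := exists_eps hF u
  rw [gd_iff hF hε, gd_iff hF (isEps_tensor hF hε hε')]
  refine forall_congr' fun l => ?_
  have h1 := hu ε' hε' l
  have h2 := hF.tensor_period t u l
  rw [gammaProd_add]
  push_cast
  constructor
  · intro h; exact h2.trans (h.mul h1)
  · intro h
    have h3 : Sim (D.tr.period t l * D.tr.period u l) (gammaProd ε l * gammaProd ε' l) :=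
      h2.symm.trans h
    have h4 := sim_div h3 h1
    rwa [mul_div_cancel_right₀ _ (hF.period_ne u l), mul_div_cancel_right₀ _ (gamma_ne ε' l)] at h4

lemma gd_prod (hF : Facts Δ D) (L : List D.tr.T) (hL : ∀ u ∈ L, GrossDeligne D u) (t : D.tr.T) :
    GrossDeligne D t ↔ GrossDeligne D (prod D t L) := by
  unfold prod
  induction L generalizing t with
  | nil => rfl
  | cons u L ih =>
    rw [List.foldl_cons, ← ih (fun v hv => hL v (List.mem_cons_of_mem _ hv)) (D.tensor t u)]
    exact gd_tensor hF (hL u List.mem_cons_self)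

lemma prod_weight (hF : Facts Δ D) (L : List D.tr.T) (t : D.tr.T) :
    D.tr.weight (prod D t L) = D.tr.weight t + (L.map D.tr.weight).sum := by
  unfold prod
  induction L generalizing t with
  | nil => simp
  | cons u L ih =>
    rw [List.foldl_cons, ih, hF.tensor_weight, List.map_cons, List.sum_cons]; ring

lemma prod_hodge (hF : Facts Δ D) (L : List D.tr.T) (t : D.tr.T) (l : (ZMod d)ˣ) :
    D.tr.hodge (prod D t L) l = D.tr.hodge t l + (L.map fun u => D.tr.hodge u l).sum := by
  unfold prod
  induction L generalizing t with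
  | nil => simp
  | cons u L ih =>
    rw [List.foldl_cons, ih, hF.tensor_hodge, List.map_cons, List.sum_cons]; ring

lemma prod_period (hF : Facts Δ D) (L : List D.tr.T) (t : D.tr.T) (l : (ZMod d)ˣ) :
    Sim (D.tr.period (prod D t L) l) (D.tr.period t l * (L.map fun u => D.tr.period u l).prod) := by
  unfold prod
  induction L generalizing t with
  | nil => simpa using Sim.refl (hF.period_ne t l)
  | cons u L ih =>
    rw [List.foldl_cons, List.map_cons, List.prod_cons, ← mul_assoc]
    refine (ih _).trans ((hF.tensor_period t u l).mul (Sim.refl ?_))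
    exact List.prod_ne_zero (by simp [hF.period_ne])

/-- the quotient of the period by the gamma product -/
noncomputable def quot (D : AllTriples d) (t : D.tr.T) (ε : ZMod d → ℚ) (l : (ZMod d)ˣ) : ℂ :=
  D.tr.period t l / gammaProd ε l

/-- the twist of `ε` -/
def tw (ε : ZMod d → ℚ) (g : (ZMod d)ˣ) (a : ZMod d) : ℚ :=
  ε (a * ((g⁻¹ : (ZMod d)ˣ) : ZMod d))

lemma isEps_twist' {p : (ZMod d)ˣ → ℤ} {ε : ZMod d → ℚ} (h : IsEps p ε) (g : (ZMod d)ˣ) :
    IsEps (fun l => p (g * l)) (tw ε g) := by
  intro l
  simp only [tw]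
  rw [h (g * l)]
  refine Fintype.sum_equiv (Units.mulRight g) _ _ fun a => ?_
  rw [Units.mulRight_apply]
  have e1 : a * (g : ZMod d) * ((g⁻¹ : (ZMod d)ˣ) : ZMod d) = a := by
    rw [mul_assoc, Units.mul_inv, mul_one]
  have e2 : (l : ZMod d) * (a * (g : ZMod d)) = ((g * l : (ZMod d)ˣ) : ZMod d) * a := by
    push_cast; ring
  rw [e1, e2]

lemma isEps_twist (hF : Facts Δ D) {t : D.tr.T} {ε : ZMod d → ℚ} (h : IsEps (D.tr.hodge t) ε)
    (g : (ZMod d)ˣ) :
    IsEps (D.tr.hodge (D.twist g t)) (tw ε g) := by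
  have e : D.tr.hodge (D.twist g t) = fun l => D.tr.hodge t (g * l) := funext (hF.twist_hodge g t)
  rw [e]
  exact isEps_twist' h g

lemma gamma_twist (ε : ZMod d → ℚ) (g l : (ZMod d)ˣ) :
    gammaProd (tw ε g) l = gammaProd ε (g * l) := by
  unfold gammaProd tw
  refine Finset.prod_congr rfl fun a _ => ?_
  have : a * ((l⁻¹ : (ZMod d)ˣ) : ZMod d) * ((g⁻¹ : (ZMod d)ˣ) : ZMod d) =
      a * (((g * l)⁻¹ : (ZMod d)ˣ) : ZMod d) := by
    rw [mul_inv_rev]
    push_cast
    rw [mul_assoc]
  rw [this]

lemma quot_ne (hF : Facts Δ D) (t : D.tr.T) (ε : ZMod d → ℚ) (l : (ZMod d)ˣ) :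
    quot D t ε l ≠ 0 :=
  div_ne_zero (hF.period_ne t l) (gamma_ne ε l)

lemma gd_iff_quot (hF : Facts Δ D) {t : D.tr.T} {ε : ZMod d → ℚ} (hε : IsEps (D.tr.hodge t) ε) :
    GrossDeligne D t ↔ ∀ l, IsAlgebraic ℚ (quot D t ε l) := by
  rw [gd_iff hF hε]
  exact forall_congr' fun l => sim_iff (hF.period_ne t l) (gamma_ne ε l)

lemma quot_inv (hF : Facts Δ D) {t : D.tr.T} {ε : ZMod d → ℚ} (hε : IsEps (D.tr.hodge t) ε)
    {g : (ZMod d)ˣ} (hg : g ∈ Δ) (l : (ZMod d)ˣ) : Sim (quot D t ε (g * l)) (quot D t ε l) := by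
  unfold quot
  rw [hF.period_inv t g hg l]
  refine sim_div (Sim.refl (hF.period_ne t l)) ?_
  rw [← gamma_twist ε g l]
  refine gamma_sim hF (p := D.tr.hodge t) ?_ hε l
  have h1 := isEps_twist' hε g
  have e : (fun l => D.tr.hodge t (g * l)) = D.tr.hodge t :=
    funext fun l => (hF.hodge t).1 g hg l
  rwa [e] at h1

/-- a triple for the list of the twists -/
lemma isEps_prod (hF : Facts Δ D) (L : List D.tr.T) (t : D.tr.T) {ε : ZMod d → ℚ}
    (hε : IsEps (D.tr.hodge t) ε) (E : D.tr.T → ZMod d → ℚ)
    (hE : ∀ u ∈ L, IsEps (D.tr.hodge u) (E u)) :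
    IsEps (D.tr.hodge (prod D t L)) (fun a => ε a + (L.map fun u => E u a).sum) := by
  unfold prod
  induction L generalizing t ε with
  | nil => simpa using hε
  | cons u L ih =>
    have h1 := ih (D.tensor t u) (isEps_tensor hF hε (hE u List.mem_cons_self))
      (fun v hv => hE v (List.mem_cons_of_mem _ hv))
    rw [List.foldl_cons]
    convert h1 using 2 with a
    rw [List.map_cons, List.sum_cons]; ring

lemma gamma_list (ι : Type*) (L : List ι) (ε : ZMod d → ℚ) (E : ι → ZMod d → ℚ) (l : (ZMod d)ˣ) :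
    gammaProd (fun a => ε a + (L.map fun u => E u a).sum) l =
      gammaProd ε l * (L.map fun u => gammaProd (E u) l).prod := by
  induction L generalizing ε with
  | nil => simp
  | cons u L ih =>
    have : (fun a => ε a + (List.map (fun u => E u a) (u :: L)).sum) =
        (fun a => (ε a + E u a) + (L.map fun u => E u a).sum) := by
      funext a
      rw [List.map_cons, List.sum_cons]; ring
    rw [this, ih, gammaProd_add, List.map_cons, List.prod_cons]; ring

lemma sim_list {ι : Type*} (L : List ι) (f g : ι → ℂ) (h : ∀ i ∈ L, Sim (f i) (g i)) :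
    Sim (L.map f).prod (L.map g).prod := by
  induction L with
  | nil => simpa using Sim.refl one_ne_zero
  | cons a L ih =>
    rw [List.map_cons, List.map_cons, List.prod_cons, List.prod_cons]
    exact (h a List.mem_cons_self).mul (ih fun i hi => h i (List.mem_cons_of_mem _ hi))

/-- the quotient for the product of the twists -/
lemma quot_twists (hF : Facts Δ D) {t : D.tr.T} {ε : ZMod d → ℚ} (hε : IsEps (D.tr.hodge t) ε)
    (g : (ZMod d)ˣ) (L : List (ZMod d)ˣ) :
    GrossDeligne D (twists D t g L) ↔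
      ∀ l, IsAlgebraic ℚ (((g :: L).map fun h => quot D t ε (h * l)).prod) := by
  have h1 : IsEps (D.tr.hodge (twists D t g L))
      (fun a => tw ε g a + (L.map fun h => tw ε h a).sum) := by
    have key : ∀ (L : List (ZMod d)ˣ) (s : D.tr.T) (η : ZMod d → ℚ), IsEps (D.tr.hodge s) η →
        IsEps (D.tr.hodge (prod D s (L.map fun h => D.twist h t)))
          (fun a => η a + (L.map fun h => tw ε h a).sum) := by
      intro L
      induction L with
      | nil => intro s η hη; simpa [prod] using hη
      | cons h L ih =>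
        intro s η hη
        have h2 := ih (D.tensor s (D.twist h t)) _ (isEps_tensor hF hη (isEps_twist hF hε h))
        have h3 : prod D s ((h :: L).map fun h => D.twist h t) =
            prod D (D.tensor s (D.twist h t)) (L.map fun h => D.twist h t) := rfl
        rw [h3]
        convert h2 using 2 with a
        rw [List.map_cons, List.sum_cons]; ring
    exact key L (D.twist g t) _ (isEps_twist hF hε g)
  rw [gd_iff hF h1]
  refine forall_congr' fun l => ?_
  have h2 : gammaProd (fun a => tw ε g a + (L.map fun h => tw ε h a).sum) l =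
      ((g :: L).map fun h => gammaProd ε (h * l)).prod := by
    rw [gamma_list (ZMod d)ˣ L (tw ε g) (fun h => tw ε h) l, gamma_twist, List.map_cons,
      List.prod_cons]
    congr 2
    exact List.map_congr_left fun h _ => gamma_twist ε h l
  have h3 : Sim (D.tr.period (twists D t g L) l)
      ((g :: L).map fun h => D.tr.period t (h * l)).prod := by
    have h4 := prod_period hF (L.map fun h => D.twist h t) (D.twist g t) l
    refine h4.trans ?_
    rw [List.map_cons, List.prod_cons, List.map_map]
    exact (hF.twist_period g t l).mul (sim_list L _ _ fun h _ => hF.twist_period h t l)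
  have h5 : ((g :: L).map fun h => quot D t ε (h * l)).prod =
      ((g :: L).map fun h => D.tr.period t (h * l)).prod /
        (((g :: L).map fun h => gammaProd ε (h * l)).prod : ℝ) := by
    unfold quot
    induction (g :: L) with
    | nil => simp
    | cons a M ih =>
      rw [List.map_cons, List.prod_cons, ih, List.map_cons, List.prod_cons, List.map_cons,
        List.prod_cons]
      push_cast
      rw [mul_div_mul_comm]
  rw [h2, h5]
  have hne : ((((g :: L).map fun h => gammaProd ε (h * l)).prod : ℝ) : ℂ) ≠ 0 := by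
    have : ((g :: L).map fun h => gammaProd ε (h * l)).prod ≠ 0 := by
      refine List.prod_ne_zero ?_
      intro h
      obtain ⟨a, -, ha⟩ := List.mem_map.mp h
      exact (gammaProd_pos ε (a * l)).ne' ha
    exact_mod_cast this
  constructor
  · intro h
    exact ((h3.symm.trans h)).2.2
  · intro h
    exact h3.trans ⟨h3.2.1, hne, h⟩

/-- the theorem on group rings -/
lemma gd_twists (hF : Facts Δ D) (t : D.tr.T) (g : (ZMod d)ˣ) (L : List (ZMod d)ˣ)
    (hL : NoZero Δ (g :: L)) : GrossDeligne D t ↔ GrossDeligne D (twists D t g L) := by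
  classical
  obtain ⟨ε, hε⟩ := exists_eps hF t
  rw [quot_twists hF hε g L, gd_iff_quot hF hε]
  constructor
  · intro h l
    induction (g :: L) with
    | nil => simpa using isAlgebraic_one
    | cons a M ih => rw [List.map_cons, List.prod_cons]; exact (h _).mul ih
  · intro h
    let Q := Additive ((ZMod d)ˣ ⧸ Δ)
    haveI : Fintype Q := Fintype.ofFinite _
    let mk : (ZMod d)ˣ → Q := fun g => Additive.ofMul (QuotientGroup.mk g)
    have hmk : ∀ a b, mk (a * b) = mk a + mk b := fun a b => rfl
    have hsurj : ∀ q : Q, ∃ a, mk a = q := fun q => by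
      obtain ⟨a, ha⟩ := QuotientGroup.mk_surjective (Additive.toMul q)
      exact ⟨a, congrArg Additive.ofMul ha⟩
    choose out hout using hsurj
    have hsim : ∀ l, Sim (quot D t ε (out (mk l))) (quot D t ε l) := by
      intro l
      have h1 : (QuotientGroup.mk (out (mk l)) : (ZMod d)ˣ ⧸ Δ) = QuotientGroup.mk l :=
        congrArg Additive.toMul (hout (mk l))
      have h2 : (out (mk l))⁻¹ * l ∈ Δ := QuotientGroup.eq.mp h1
      have h3 := Δ.inv_mem h2
      have h4 := quot_inv hF hε h3 l
      have e : ((out (mk l))⁻¹ * l)⁻¹ * l = out (mk l) := by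
        rw [mul_inv_rev, inv_inv, mul_comm l⁻¹, mul_assoc, inv_mul_cancel, mul_one]
      rwa [e] at h4
    have hk := key (Q := Q) ((g :: L).map mk) ?_ (fun q => quot D t ε (out q))
      (fun q => quot_ne hF t ε _) ?_
    · intro l
      have h1 := hk (mk l)
      have h2 := hsim l
      have h3 : IsAlgebraic ℚ (quot D t ε l) := by
        have : quot D t ε l = quot D t ε (out (mk l)) *
            (quot D t ε (out (mk l)) / quot D t ε l)⁻¹ := by
          have := h2.1; have := h2.2.1
          field_simp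
        rw [this]
        exact h1.mul h2.2.2.inv
      exact h3
    · intro χ
      let f : (ZMod d)ˣ →* ℂ :=
        { toFun := fun g => χ (mk g)
          map_one' := by
            have : mk 1 = 0 := rfl
            simp [this]
          map_mul' := fun a b => by simp [hmk, AddChar.map_add_eq_mul] }
      have h1 := hL (MonoidHom.toHomUnits f) (fun g hg => by
        ext
        have : mk g = 0 := by
          change Additive.ofMul (QuotientGroup.mk g : (ZMod d)ˣ ⧸ Δ) = 0
          rw [(QuotientGroup.eq_one_iff g).mpr hg]; rfl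
        simp [f, this])
      rw [List.map_map]
      exact h1
    · intro q
      obtain ⟨l, rfl⟩ : ∃ l, mk l = q := ⟨out q, hout q⟩
      rw [List.map_map]
      have h1 : Sim ((g :: L).map fun h => quot D t ε (out (mk h + mk l))).prod
          ((g :: L).map fun h => quot D t ε (h * l)).prod :=
        sim_list _ _ _ fun h _ => by rw [← hmk]; exact hsim (h * l)
      have h2 := h l
      have h3 : ((g :: L).map fun h => quot D t ε (out (mk h + mk l))).prod =
          (((g :: L).map fun h => quot D t ε (out (mk h + mk l))).prod /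
            ((g :: L).map fun h => quot D t ε (h * l)).prod) *
          ((g :: L).map fun h => quot D t ε (h * l)).prod := by
        rw [div_mul_cancel₀ _ h1.2.1]
      have h4 : IsAlgebraic ℚ ((g :: L).map fun h => quot D t ε (out (mk h + mk l))).prod := by
        rw [h3]; exact h1.2.2.mul h2
      exact h4

end Pool.Agent.Q28.GE
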