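import Pool.Agent.Q28.GE.Main

/-!
# The conjecture of Gross and Deligne: reduction to Hodge classes
-/

namespace Pool.Agent.Q28.GE

open Pool.Agent.Q28.GD Finset

variable {d : ℕ} [NeZero d] {Δ : Subgroup (ZMod d)ˣ} {D : AllTriples d}

lemma sim_pow {x y : ℂ} (h : Sim x y) (k : ℕ) : Sim (x ^ k) (y ^ k) := by
  induction k with
  | zero => simpa using Sim.refl one_ne_zero
  | succ k ih => rw [pow_succ, pow_succ]; exact ih.mul h

lemma isEps_const (hd : 1 < d) (k : ℕ) :
    IsEps (fun _ : (ZMod d)ˣ => (k : ℤ)) (fun a => (k : ℚ) * epsTate a) := by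
  induction k with
  | zero => simpa using (isEps_zero (d := d))
  | succ k ih =>
    have h := ih.add (isEps_tate hd)
    have e1 : (fun _ : (ZMod d)ˣ => ((k + 1 : ℕ) : ℤ)) = fun _ => (k : ℤ) + 1 := by
      funext l; push_cast; ring
    have e2 : (fun a : ZMod d => ((k + 1 : ℕ) : ℚ) * epsTate a) =
        fun a => (k : ℚ) * epsTate a + epsTate a := by
      funext a; push_cast; ring
    rw [e1, e2]
    exact h

lemma gamma_const (hd : 1 < d) (k : ℕ) (l : (ZMod d)ˣ) :
    Sim ((Real.pi : ℂ) ^ k) (gammaProd (fun a : ZMod d => (k : ℚ) * epsTate a) l) := by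
  induction k with
  | zero =>
    have : (fun a : ZMod d => ((0 : ℕ) : ℚ) * epsTate a) = fun _ => 0 := by funext a; simp
    rw [this, gammaProd_zero]
    simpa using Sim.refl (x := 1) one_ne_zero
  | succ k ih =>
    have e2 : (fun a : ZMod d => ((k + 1 : ℕ) : ℚ) * epsTate a) =
        fun a => (k : ℚ) * epsTate a + epsTate a := by
      funext a; push_cast; ring
    rw [e2, gammaProd_add, pow_succ]
    push_cast
    exact ih.mul (gammaProd_tate hd l)

/-- for triples of Tate type the conjecture says that the periods are the powers of `π` -/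
lemma gd_tate (hF : Facts Δ D) (hd : 1 < d) {t : D.tr.T} {k : ℕ} (ht : IsTateType D t k) :
    GrossDeligne D t ↔ ∀ l, Sim (D.tr.period t l) ((Real.pi : ℂ) ^ k) := by
  have h1 : IsEps (D.tr.hodge t) (fun a => (k : ℚ) * epsTate a) := by
    have : D.tr.hodge t = fun _ => (k : ℤ) := funext ht.2
    rw [this]
    exact isEps_const hd k
  rw [gd_iff hF h1]
  exact forall_congr' fun l =>
    ⟨fun h => h.trans (gamma_const hd k l).symm, fun h => h.trans (gamma_const hd k l)⟩

/-- if `F` is not real, then all Hodge numbers are sums of CM types -/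
lemma sum_types (hΔ : (-1 : (ZMod d)ˣ) ∉ Δ) {p : (ZMod d)ˣ → ℤ} {m : ℕ} (hp : IsHodge Δ p m)
    (h0 : ∀ l, 0 ≤ p l) : ∃ φ : Fin m → (ZMod d)ˣ → ℤ, (∀ j l, φ j l = 0 ∨ φ j l = 1) ∧
      (∀ j, IsHodge Δ (φ j) 1) ∧ ∀ l, p l = ∑ j, φ j l := by
  classical
  obtain ⟨S, hS1, hS2⟩ := exists_type hΔ
  have hle : ∀ l, p l ≤ m := fun l => by
    have := hp.2 l
    have := h0 (-l)
    linarith
  let φ : Fin m → (ZMod d)ˣ → ℤ := fun j l =>
    if l ∈ S then (if ((j : ℕ) : ℤ) < p l then 1 else 0)
      else (if ((j : ℕ) : ℤ) < p (-l) then 0 else 1)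
  have hcount : ∀ k : ℤ, 0 ≤ k → k ≤ m →
      ∑ j : Fin m, (if ((j : ℕ) : ℤ) < k then (1 : ℤ) else 0) = k := by
    intro k hk hkm
    rw [Fin.sum_univ_eq_sum_range (fun j => if ((j : ℕ) : ℤ) < k then (1 : ℤ) else 0) m,
      ← Finset.sum_filter, Finset.sum_const, nsmul_eq_mul, mul_one]
    have : (Finset.range m).filter (fun j : ℕ => (j : ℤ) < k) = Finset.range k.toNat := by
      ext j
      simp only [Finset.mem_filter, Finset.mem_range]
      omega
    rw [this, Finset.card_range, Int.toNat_of_nonneg hk]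
  refine ⟨φ, fun j l => ?_, fun j => ⟨fun g hg l => ?_, fun l => ?_⟩, fun l => ?_⟩
  · simp only [φ]
    split_ifs <;> simp
  · have e1 : p (g * l) = p l := hp.1 g hg l
    have e2 : p (-(g * l)) = p (-l) := by rw [← mul_neg]; exact hp.1 g hg _
    simp only [φ, hS1 g hg l, e1, e2]
  · by_cases hl : l ∈ S
    · have hl' : -l ∉ S := fun h => (hS2 l).1 h hl
      simp only [φ, if_pos hl, if_neg hl', neg_neg]
      split_ifs <;> simp
    · have hl' : -l ∈ S := (hS2 l).2 hl
      simp only [φ, if_neg hl, if_pos hl']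
      split_ifs <;> simp
  · by_cases hl : l ∈ S
    · simp only [φ, if_pos hl]
      rw [hcount _ (h0 l) (hle l)]
    · simp only [φ, if_neg hl]
      have h1 : ∀ j : Fin m, (if ((j : ℕ) : ℤ) < p (-l) then (0 : ℤ) else 1) =
          1 - (if ((j : ℕ) : ℤ) < p (-l) then (1 : ℤ) else 0) := by
        intro j; split_ifs <;> simp
      simp_rw [h1]
      rw [Finset.sum_sub_distrib, hcount _ (h0 (-l)) (hle (-l))]
      have := hp.2 l
      simp only [Finset.sum_const, Finset.card_univ, Fintype.card_fin, nsmul_eq_mul, mul_one]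
      linarith

/-- lists of abelian varieties with given sum of the Hodge numbers -/
lemma exists_list (hF : Facts Δ D) (hΔ : (-1 : (ZMod d)ˣ) ∉ Δ) {p : (ZMod d)ˣ → ℤ} {m : ℕ}
    (hp : IsHodge Δ p m) (h0 : ∀ l, 0 ≤ p l) : ∃ As : List D.tr.T, (∀ A ∈ As, D.AV A) ∧
      As.length = m ∧ ∀ l, p l = (As.map fun A => D.tr.hodge A l).sum := by
  obtain ⟨φ, h1, h2, h3⟩ := sum_types hΔ hp h0
  choose A hA hAφ using fun j => hF.cm (φ j) (h1 j) (h2 j)
  refine ⟨List.ofFn A, fun B hB => ?_, List.length_ofFn, fun l => ?_⟩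
  · obtain ⟨j, rfl⟩ := (List.mem_ofFn' A B).mp hB
    exact hA j
  · rw [h3 l, List.map_ofFn, List.sum_ofFn]
    exact Finset.sum_congr rfl fun j _ => by simp [hAφ]

lemma av_weight (hF : Facts Δ D) {A : D.tr.T} (φ : (ZMod d)ˣ → ℤ) (m : ℤ)
    (hφ : IsHodge Δ φ m) (h : D.tr.hodge A = φ) : (D.tr.weight A : ℤ) = m := by
  have h1 := (hF.hodge A).2 1
  rw [h] at h1
  rw [← h1]
  exact hφ.2 1

lemma weight_of_hodge (hF : Facts Δ D) {t : D.tr.T} {k : ℕ} (h : ∀ l, D.tr.hodge t l = k) :
    IsTateType D t k := by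
  refine ⟨?_, h⟩
  have h1 := (hF.hodge t).2 1
  rw [h, h] at h1
  have : (D.tr.weight t : ℤ) = 2 * k := by rw [← h1]; ring
  exact_mod_cast this

/-- the reduction to Tate type -/
lemma to_tate (hF : Facts Δ D) (hΔ : (-1 : (ZMod d)ˣ) ∉ Δ) (t : D.tr.T) :
    ∃ As : List D.tr.T, (∀ A ∈ As, D.AV A) ∧ As.length = D.tr.weight t ∧
      IsTateType D (prod D t As) (D.tr.weight t) ∧
      (GrossDeligne D t ↔ GrossDeligne D (prod D t As)) := by
  have hp := hF.hodge t
  have hq : IsHodge Δ (fun l => D.tr.hodge t (-l)) (D.tr.weight t) := by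
    refine ⟨fun g hg l => ?_, fun l => ?_⟩
    · simp only
      rw [← mul_neg]; exact hp.1 g hg _
    · have := hp.2 l
      simp only [neg_neg]
      linarith
  obtain ⟨As, h1, h2, h3⟩ := exists_list hF hΔ hq (fun l => hF.pos t _)
  refine ⟨As, h1, h2, weight_of_hodge hF fun l => ?_,
    gd_prod hF As (fun A hA => hF.anderson A (h1 A hA)) t⟩
  rw [prod_hodge hF, ← h3 l]
  exact hp.2 l

/-- if `F` is real, all triples are of Tate type -/
lemma real_tate (hF : Facts Δ D) (hΔ : (-1 : (ZMod d)ˣ) ∈ Δ) (t : D.tr.T) :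
    ∃ k, IsTateType D t k := by
  have hp := hF.hodge t
  have h1 : ∀ l, D.tr.hodge t (-l) = D.tr.hodge t l := fun l => by
    have := hp.1 (-1) hΔ l
    rwa [neg_one_mul] at this
  have h2 : ∀ l, 2 * D.tr.hodge t l = D.tr.weight t := fun l => by
    have := hp.2 l
    rw [h1] at this
    linarith
  refine ⟨(D.tr.hodge t 1).toNat, weight_of_hodge hF fun l => ?_⟩
  have a := h2 l
  have b := h2 1
  rw [Int.toNat_of_nonneg (hF.pos t 1)]
  linarith

lemma tate_gd (hF : Facts Δ D) (hd : 1 < d) : GrossDeligne D D.tate := by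
  have : IsTateType D D.tate 1 := weight_of_hodge hF (k := 1) (by simpa using hF.tate_hodge)
  rw [gd_tate hF hd this]
  simpa using hF.tate_period

/-- comparison with a triple for which the conjecture is known -/
lemma of_same_tate (hF : Facts Δ D) (hd : 1 < d)
    (H : ∀ t u, D.tr.hodge t = D.tr.hodge u → ∀ l, Sim (D.tr.period t l) (D.tr.period u l))
    {t : D.tr.T} {k : ℕ} (ht : IsTateType D t k) : GrossDeligne D t := by
  rw [gd_tate hF hd ht]
  cases k with
  | zero => simpa using hF.weight_zero t (by simpa using ht.1)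
  | succ k =>
    set u := prod D D.tate (List.replicate k D.tate) with hu
    have hGD : GrossDeligne D u := (gd_prod hF _ (fun v hv => by
      rw [List.eq_of_mem_replicate hv]; exact tate_gd hF hd) _).mp (tate_gd hF hd)
    have hhod : ∀ l, D.tr.hodge u l = ((k + 1 : ℕ) : ℤ) := by
      intro l
      rw [hu, prod_hodge hF, List.map_replicate, List.sum_replicate, hF.tate_hodge]
      push_cast
      simp [add_comm]
    have h1 := (gd_tate hF hd (weight_of_hodge hF hhod)).mp hGD
    intro l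
    exact (H t u (funext fun l => (ht.2 l).trans (hhod l).symm) l).trans (h1 l)

theorem tfae (hF : Facts Δ D) (hd : 1 < d) :
    List.TFAE [∀ t, GrossDeligne D t,
      ∀ t k, IsTateType D t k → ∀ l, Sim (D.tr.period t l) ((Real.pi : ℂ) ^ k),
      ∀ t u, D.tr.hodge t = D.tr.hodge u → ∀ l, Sim (D.tr.period t l) (D.tr.period u l)] := by
  tfae_have 1 → 2 := fun h t k ht => (gd_tate hF hd ht).mp (h t)
  tfae_have 2 → 1 := by
    intro h t
    by_cases hΔ : (-1 : (ZMod d)ˣ) ∈ Δ
    · obtain ⟨k, hk⟩ := real_tate hF hΔ t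
      exact (gd_tate hF hd hk).mpr (h t k hk)
    · obtain ⟨As, -, -, h3, h4⟩ := to_tate hF hΔ t
      exact h4.mpr ((gd_tate hF hd h3).mpr (h _ _ h3))
  tfae_have 1 → 3 := by
    intro h t u htu l
    obtain ⟨ε, hε⟩ := exists_eps hF t
    exact (h t ε hε l).trans (h u ε (htu ▸ hε) l).symm
  tfae_have 3 → 1 := by
    intro H t
    by_cases hΔ : (-1 : (ZMod d)ˣ) ∈ Δ
    · obtain ⟨k, hk⟩ := real_tate hF hΔ t
      exact of_same_tate hF hd H hk
    · obtain ⟨As, h1, h2, h3⟩ := exists_list hF hΔ (hF.hodge t) (hF.pos t)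
      cases As with
      | nil =>
        have hw : D.tr.weight t = 0 := by simpa using h2.symm
        have : IsTateType D t 0 := weight_of_hodge hF (k := 0) (by simpa using h3)
        exact of_same_tate hF hd H this
      | cons A As =>
        have hGD : GrossDeligne D (prod D A As) :=
          (gd_prod hF As (fun B hB => hF.anderson B (h1 B (List.mem_cons_of_mem _ hB))) A).mp
            (hF.anderson A (h1 A List.mem_cons_self))
        have he : D.tr.hodge t = D.tr.hodge (prod D A As) := by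
          funext l
          rw [prod_hodge hF, h3 l, List.map_cons, List.sum_cons]
        intro ε hε l
        exact (H _ _ he l).trans (hGD ε (he ▸ hε) l)
  tfae_finish

end Pool.Agent.Q28.GE
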